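import Pool.Agent.L0h18.FS.Defs

/-!
# FS: monotonicity of the jump and of the sum of its finite iterates
-/

set_option autoImplicit false

namespace Pool.Agent.L0h61.FS

open Pool.Agent.L0h18.FS

/-- composition with a reduction -/
theorem jump_map {E F : ℕ → ℕ → Prop} (hE : Equivalence E) (hF : Equivalence F) {h t : ℕ → ℕ}
    (hh : ∀ n n', E n n' ↔ F (h n) (h n')) (ht : ∀ e n, φ (t e) n = (φ e n).map h) (e e' : ℕ) :
    jump E e e' ↔ jump F (t e) (t e') := by
  rw [jump_iff hE, jump_iff hF]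
  have key : ∀ e e' : ℕ, (∀ n, ∀ v ∈ φ e n, ∃ m, ∃ w ∈ φ e' m, E v w) ↔
      (∀ n, ∀ v ∈ φ (t e) n, ∃ m, ∃ w ∈ φ (t e') m, F v w) := by
    intro e e'
    constructor
    · intro H n v hv
      rw [ht, Part.mem_map_iff] at hv
      obtain ⟨v', hv', rfl⟩ := hv
      obtain ⟨m, w, hw, hvw⟩ := H n v' hv'
      exact ⟨m, h w, by rw [ht]; exact Part.mem_map h hw, (hh _ _).1 hvw⟩
    · intro H n v hv
      obtain ⟨m, w, hw, hvw⟩ := H n (h v) (by rw [ht]; exact Part.mem_map h hv)
      rw [ht, Part.mem_map_iff] at hw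
      obtain ⟨w', hw', rfl⟩ := hw
      exact ⟨m, w', hw', (hh _ _).2 hvw⟩
  have key' : ∀ e e' : ℕ, (∀ n, ∀ v ∈ φ e' n, ∃ m, ∃ w ∈ φ e m, E v w) ↔
      (∀ n, ∀ v ∈ φ (t e') n, ∃ m, ∃ w ∈ φ (t e) m, F v w) := fun e e' => key e' e
  rw [key e e', key' e e']

theorem m1 (R S : ℕ → ℕ → Prop) (hR : Equivalence R) (hS : Equivalence S) (h : Red R S) :
    Red (jump R) (jump S) := by
  obtain ⟨f, hf, hf'⟩ := h
  have h1 : Partrec₂ (fun e n : ℕ => (φ e n).map f) :=
    Partrec.map φ_partrec (hf.comp Computable.snd).to₂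
  obtain ⟨s, hs, hs'⟩ := smn h1
  exact ⟨s, hs, jump_map hR hS hf' hs'⟩

theorem m2 (R : ℕ → ℕ → Prop) (hR : Equivalence R) : Red R (jump R) := by
  have h1 : Partrec₂ (fun x _ : ℕ => Part.some x) := (Computable.fst : Computable _)
  obtain ⟨s, hs, hs'⟩ := smn h1
  refine ⟨s, hs, fun x y => ?_⟩
  rw [jump_iff hR]
  constructor
  · intro hxy
    constructor
    · intro n v hv
      rw [hs', Part.mem_some_iff] at hv
      exact ⟨0, y, by rw [hs']; exact Part.mem_some _, hv ▸ hxy⟩
    · intro n v hv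
      rw [hs', Part.mem_some_iff] at hv
      exact ⟨0, x, by rw [hs']; exact Part.mem_some _, hv ▸ hR.symm hxy⟩
  · rintro ⟨h2, -⟩
    obtain ⟨m, w, hw, hvw⟩ := h2 0 x (by rw [hs']; exact Part.mem_some _)
    rw [hs', Part.mem_some_iff] at hw
    rwa [hw] at hvw

theorem m3 (R S : ℕ → ℕ → Prop) (hR : Equivalence R) (hS : Equivalence S) (h : Red R S) :
    Red (Om R) (Om S) := by
  obtain ⟨f, hf, hf'⟩ := h
  -- a code of `f`
  have h0 : Partrec₂ (fun (_ : Unit) (n : ℕ) => (Part.some (f n) : Part ℕ)) :=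
    (hf.comp Computable.snd : Computable _)
  obtain ⟨s0, -, hs0⟩ := smn h0
  set c : ℕ := s0 () with hc
  have hcf : ∀ n, φ c n = Part.some (f n) := fun n => hs0 () n
  -- the first application
  have h1 : Partrec₂ (fun (p : ℕ × ℕ) (n : ℕ) => (φ p.2 n).bind (φ p.1)) := by
    have a1 : Partrec (fun q : (ℕ × ℕ) × ℕ => φ q.1.2 q.2) :=
      φ_partrec.comp (Computable.snd.comp Computable.fst) Computable.snd
    have a2 : Partrec₂ (fun (q : (ℕ × ℕ) × ℕ) (v : ℕ) => φ q.1.1 v) :=
      φ_partrec.comp ((Computable.fst.comp (Computable.fst.comp Computable.fst)))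
        Computable.snd
    exact a1.bind a2
  obtain ⟨s1, hs1, hs1'⟩ := smn h1
  have h2 : Partrec₂ (fun (c e : ℕ) => (Part.some (s1 (c, e)) : Part ℕ)) :=
    (hs1.comp (Computable.pair Computable.fst Computable.snd) : Computable _)
  obtain ⟨L, hL, hL'⟩ := smn h2
  -- the iterates
  have hcj : Computable (fun j : ℕ => L^[j] c) := by
    have a1 : Computable (fun j : ℕ => (Nat.rec c (fun _ ih => L ih) j : ℕ)) :=
      Computable.nat_rec Computable.id (Computable.const c)
        (hL.comp (Computable.snd.comp Computable.snd)).to₂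
    refine a1.of_eq fun j => ?_
    induction j with
    | zero => rfl
    | succ j ih =>
      rw [Function.iterate_succ_apply', ← ih]
  have hj : ∀ j : ℕ, ∃ h : ℕ → ℕ, (∀ n, φ (L^[j] c) n = Part.some (h n)) ∧
      ∀ n n', jump^[j] R n n' ↔ jump^[j] S (h n) (h n') := by
    intro j
    induction j with
    | zero => exact ⟨f, hcf, hf'⟩
    | succ j ih =>
      obtain ⟨h, ih1, ih2⟩ := ih
      refine ⟨fun e => s1 (L^[j] c, e), fun n => ?_, fun n n' => ?_⟩
      · rw [Function.iterate_succ_apply', hL']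
      · rw [Function.iterate_succ_apply', Function.iterate_succ_apply']
        refine jump_map (t := fun e => s1 (L^[j] c, e)) (iter_equiv hR j) (iter_equiv hS j) ih2
          (fun e n => ?_) n n'
        rw [hs1']
        show (φ e n).bind (φ (L^[j] c)) = _
        rw [show φ (L^[j] c) = fun n => Part.some (h n) from funext ih1]
        exact Part.bind_some_eq_map h _
  choose h hh1 hh2 using hj
  refine ⟨fun p => Nat.pair p.unpair.1 (h p.unpair.1 p.unpair.2), ?_, ?_⟩
  · have a1 : Partrec (fun p : ℕ => (φ (L^[p.unpair.1] c) p.unpair.2).map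
        (Nat.pair p.unpair.1)) := by
      refine Partrec.map ?_ ?_
      · exact φ_partrec.comp (hcj.comp (Computable.fst.comp Computable.unpair))
          (Computable.snd.comp Computable.unpair)
      · exact (Primrec₂.natPair.to_comp.comp
          ((Computable.fst.comp Computable.unpair).comp Computable.fst) Computable.snd).to₂
    refine a1.of_eq fun p => ?_
    rw [hh1, Part.map_some]
    rfl
  · intro p q
    unfold Om sum
    rw [Nat.unpair_pair, Nat.unpair_pair]
    constructor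
    · rintro ⟨h3, h4⟩
      refine ⟨h3, ?_⟩
      rw [← h3]
      exact (hh2 _ _ _).1 h4
    · rintro ⟨h3, h4⟩
      simp only at h3 h4
      refine ⟨h3, ?_⟩
      rw [← h3] at h4
      exact (hh2 _ _ _).2 h4

theorem m4 (R : ℕ → ℕ → Prop) (_ : Equivalence R) : Red R (Om R) := by
  refine ⟨fun x => Nat.pair 0 x, ?_, fun x y => ?_⟩
  · exact Primrec₂.natPair.to_comp.comp (Computable.const 0) Computable.id
  · unfold Om sum
    rw [Nat.unpair_pair, Nat.unpair_pair]
    exact ⟨fun h => ⟨rfl, h⟩, fun h => h.2⟩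

theorem mono : S_MONO := ⟨m1, m2, m3, m4⟩

end Pool.Agent.L0h61.FS
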